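import Mathlib
import Pool.Agent.Q200.NIPCount
import Pool.Agent.TH574.PZ.Kron

/-!
# MP_66c0d0_lc: the integers with two irrational cyclic orders are NIP
-/

namespace Pool.Agent.Results.MP_66c0d0_lc.TwoCyclicOrdersNIP

open FirstOrder FirstOrder.Language Q200.CircData Q200.NIPCount

universe w

/-! ## Definitions -/

/-- The cyclic group order `C_α` on `ℤ`. -/
def Cyc (α : ℝ) (a b c : ℤ) : Prop :=
  (Int.fract (a * α) < Int.fract (b * α) ∧ Int.fract (b * α) < Int.fract (c * α)) ∨
  (Int.fract (b * α) < Int.fract (c * α) ∧ Int.fract (c * α) < Int.fract (a * α)) ∨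
  (Int.fract (c * α) < Int.fract (a * α) ∧ Int.fract (a * α) < Int.fract (b * α))

/-- The function symbol `+`. -/
inductive ZFn : ℕ → Type
  | add : ZFn 2

/-- The two ternary relation symbols. -/
inductive ZRel : ℕ → Type
  | Ca : ZRel 3
  | Cb : ZRel 3

/-- The language with a binary function symbol and two ternary relation symbols. -/
def Lzc : FirstOrder.Language.{0, 0} := ⟨ZFn, ZRel⟩

/-- The structure `(ℤ; +, C_α, C_β)`. -/
@[reducible]
def zcStructure (α β : ℝ) : Lzc.Structure ℤ where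
  funMap := fun {_} f v => match f, v with
    | .add, v => v 0 + v 1
  RelMap := fun {_} r v => match r, v with
    | .Ca, v => Cyc α (v 0) (v 1) (v 2)
    | .Cb, v => Cyc β (v 0) (v 1) (v 2)

/-- The theory `T` has no formula with the independence property in a model of `T`. -/
def NIPTheory {L : FirstOrder.Language.{0, 0}} (T : L.Theory) : Prop :=
  ∀ (M : Type w) (_ : L.Structure M) (_ : Nonempty M), M ⊨ T →
    ∀ (p q : ℕ) (φ : L.Formula (Fin p ⊕ Fin q)),
      ¬ ∃ (a : ℕ → Fin p → M) (b : Set ℕ → Fin q → M), ∀ i S,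
        (φ.Realize (Sum.elim (a i) (b S)) ↔ i ∈ S)

/-! ## Reduction to finite data -/

section Reduction

variable {ι : Type} {θ : ι → ℝ}

theorem evZ_mapDomain {β β' : Type} (e : β → β') (l : β →₀ ℤ) (u : β' → ℤ) :
    evZ (l.mapDomain e) u = evZ l (u ∘ e) := by
  classical
  unfold evZ
  rw [Finsupp.sum_mapDomain_index (by simp) (by intros; ring)]
  rfl

theorem evF_mapDomain {β β' : Type} (i : ι) (e : β → β') (l : β →₀ ℤ) (u : β' → ℤ) :
    evF θ i (l.mapDomain e) u = evF θ i l (u ∘ e) := by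
  classical
  unfold evF
  rw [Finsupp.sum_mapDomain_index (by simp) (by intros; push_cast; ring)]
  rfl

theorem tame_reindex {β β' X : Type} (e : β → β') {g : (β → ℤ) → X} (hg : Tame θ g) :
    Tame θ (fun u : β' → ℤ => g (u ∘ e)) := by
  classical
  obtain ⟨D, hD⟩ := hg
  refine ⟨⟨D.N, D.hN, D.L.image (fun x => (x.1.mapDomain e, x.2)),
    D.F.image (fun x => (x.1.mapDomain e, x.2))⟩, fun v w h => hD _ _ ⟨?_, ?_, ?_⟩⟩
  · intro b
    exact h.1 (e b)
  · intro x hx
    have := h.2.1 _ (Finset.mem_image_of_mem _ hx)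
    simp only [evZ_mapDomain] at this
    exact this
  · intro x hx
    have := h.2.2 _ (Finset.mem_image_of_mem _ hx)
    simp only [evF_mapDomain] at this
    exact this

theorem tame_all [Fintype ι] (hK : Kron θ) (hirr : ∀ i, Irrational (θ i)) {β : Type}
    {P : (Option β → ℤ) → Prop} (hP : Tame θ P) :
    Tame θ (fun v : β → ℤ => ∀ z, P (ext v z)) := by
  obtain ⟨D, hD⟩ := hP
  obtain ⟨D', hD'⟩ := elim hK hirr D
  have key : ∀ v w, Same θ D' v w → (∀ z, P (ext v z)) → ∀ z, P (ext w z) := by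
    intro v w h hv z
    obtain ⟨z', hz'⟩ := hD' w v h.symm z
    rw [hD _ _ hz']
    exact hv z'
  exact ⟨D', fun v w h => propext ⟨key v w h, key w v h.symm⟩⟩

/-- Comparison of `{x₁ α}` and `{x₂ α}` for `α = p / r + q θ_j`. -/
theorem tame_lt {β : Type} {α : ℝ} {p q : ℤ} {r : ℕ} (hr : 0 < r) {j : ι}
    (hα : α = (p : ℝ) / r + q * θ j) (l₁ l₂ : β →₀ ℤ) :
    Tame θ (fun u : β → ℤ => Int.fract (((evZ l₁ u : ℤ) : ℝ) * α) <
      Int.fract (((evZ l₂ u : ℤ) : ℝ) * α)) := by
  classical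
  have hr' : (r : ℝ) ≠ 0 := by exact_mod_cast hr.ne'
  have hrZ : (r : ℤ) ≠ 0 := by exact_mod_cast hr.ne'
  -- the fractional part
  have hfract : ∀ (l : β →₀ ℤ) (u : β → ℤ), Int.fract (((evZ l u : ℤ) : ℝ) * α) =
      Int.fract (evF θ j (q • l) u + (((p * (evZ l u % r)) % r : ℤ) : ℝ) / r) := by
    intro l u
    have hid := ev_identity θ j l u
    have h1 : ((evZ l u : ℤ) : ℝ) * α =
        (evF θ j (q • l) u + (((p * (evZ l u % r)) % r : ℤ) : ℝ) / r) +
          ((q * evL θ j l u + (p * (evZ l u % r)) / r + p * (evZ l u / r) : ℤ) : ℝ) := by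
      have e1 : ((evZ l u : ℤ) : ℝ) = r * ((evZ l u / r : ℤ) : ℝ) + ((evZ l u % r : ℤ) : ℝ) := by
        have := Int.mul_ediv_add_emod (evZ l u) r
        exact_mod_cast this.symm
      have e2 : ((p * (evZ l u % r) : ℤ) : ℝ) = r * (((p * (evZ l u % r)) / r : ℤ) : ℝ) +
          (((p * (evZ l u % r)) % r : ℤ) : ℝ) := by
        have := Int.mul_ediv_add_emod (p * (evZ l u % r)) r
        exact_mod_cast this.symm
      rw [hα, evF_smul, mul_add]
      have e3 : ((evZ l u : ℤ) : ℝ) * ((p : ℝ) / r) =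
          (((p * (evZ l u % r)) % r : ℤ) : ℝ) / r + (((p * (evZ l u % r)) / r : ℤ) : ℝ) +
            p * ((evZ l u / r : ℤ) : ℝ) := by
        rw [e1]
        push_cast at e2 ⊢
        field_simp
        linear_combination e2
      rw [e3]
      push_cast
      linear_combination (q : ℝ) * hid
    rw [h1, Int.fract_add_intCast]
  -- the residues are tame
  have hres : ∀ l : β →₀ ℤ, Tame θ (fun u : β → ℤ => (p * (evZ l u % r)) % r) := fun l =>
    (tame_emod l r hr).map (fun x => (p * x) % r)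
  have hresmem : ∀ (l : β →₀ ℤ) (u : β → ℤ), (p * (evZ l u % r)) % r ∈ Finset.Ico (0 : ℤ) r :=
    fun l u => Finset.mem_Ico.mpr ⟨Int.emod_nonneg _ hrZ,
      Int.emod_lt_of_pos _ (by exact_mod_cast hr)⟩
  -- comparison for fixed residues
  have hfix : ∀ s₁ s₂ : ℤ, Tame θ (fun u : β → ℤ =>
      Int.fract (evF θ j (q • l₁) u + (s₁ : ℝ) / r) <
        Int.fract (evF θ j (q • l₂) u + (s₂ : ℝ) / r)) := by
    intro s₁ s₂
    have h := Tame.bind (θ := θ)
      (Finset.Icc (-ibnd (q • l₁) ((s₁ : ℝ) / r)) (ibnd (q • l₁) ((s₁ : ℝ) / r)) ×ˢ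
        Finset.Icc (-ibnd (q • l₂) ((s₂ : ℝ) / r)) (ibnd (q • l₂) ((s₂ : ℝ) / r)))
      ((tame_floor (θ := θ) j (q • l₁) ((s₁ : ℝ) / r)).prod
        (tame_floor (θ := θ) j (q • l₂) ((s₂ : ℝ) / r)))
      (fun v => Finset.mem_product.mpr ⟨floor_mem j _ _ v, floor_mem j _ _ v⟩)
      (g := fun n u => evF θ j (q • l₁ - q • l₂) u +
        ((s₁ : ℝ) / r - (s₂ : ℝ) / r - n.1 + n.2) < 0)
      (fun n _ => tame_neg _ _ _)
    obtain ⟨D, hD⟩ := h
    refine ⟨D, fun v w hs => ?_⟩
    have := hD v w hs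
    have e : ∀ u : β → ℤ, (Int.fract (evF θ j (q • l₁) u + (s₁ : ℝ) / r) <
        Int.fract (evF θ j (q • l₂) u + (s₂ : ℝ) / r)) =
        (evF θ j (q • l₁ - q • l₂) u + ((s₁ : ℝ) / r - (s₂ : ℝ) / r -
          (⌊evF θ j (q • l₁) u + (s₁ : ℝ) / r⌋ : ℤ) +
          (⌊evF θ j (q • l₂) u + (s₂ : ℝ) / r⌋ : ℤ)) < 0) := by
      intro u
      rw [evF_sub]
      unfold Int.fract
      apply propext
      constructor <;> intro h <;> linarith
    change (_ < _) = (_ < _)
    rw [e v, e w]
    exact this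
  have h := Tame.bind (θ := θ) (Finset.Ico (0 : ℤ) r ×ˢ Finset.Ico (0 : ℤ) r)
    ((hres l₁).prod (hres l₂))
    (fun v => Finset.mem_product.mpr ⟨hresmem l₁ v, hresmem l₂ v⟩)
    (g := fun s u => Int.fract (evF θ j (q • l₁) u + ((s.1 : ℤ) : ℝ) / r) <
        Int.fract (evF θ j (q • l₂) u + ((s.2 : ℤ) : ℝ) / r))
    (fun s _ => hfix s.1 s.2)
  obtain ⟨D, hD⟩ := h
  refine ⟨D, fun v w hs => ?_⟩
  have := hD v w hs
  change (_ < _) = (_ < _)
  rw [hfract l₁ v, hfract l₂ v, hfract l₁ w, hfract l₂ w]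
  exact this

theorem tame_cyc {β : Type} {α : ℝ} {p q : ℤ} {r : ℕ} (hr : 0 < r) {j : ι}
    (hα : α = (p : ℝ) / r + q * θ j) (l₁ l₂ l₃ : β →₀ ℤ) :
    Tame θ (fun u : β → ℤ => Cyc α (evZ l₁ u) (evZ l₂ u) (evZ l₃ u)) := by
  have h12 := tame_lt hr hα l₁ l₂
  have h23 := tame_lt hr hα l₂ l₃
  have h31 := tame_lt hr hα l₃ l₁
  exact ((h12.map₂ h23 And).map₂ ((h23.map₂ h31 And).map₂ (h31.map₂ h12 And) Or) Or)

/-- Terms are linear forms. -/
theorem term_form (α β : ℝ) {γ : Type} (t : Lzc.Term γ) : ∃ l : γ →₀ ℤ, ∀ v : γ → ℤ,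
    @Term.realize Lzc ℤ (zcStructure α β) γ v t = evZ l v := by
  induction t with
  | var i => exact ⟨Finsupp.single i 1, fun v => by simp [evZ]⟩
  | func f ts ih =>
    choose l hl using ih
    cases f with
    | add => exact ⟨l 0 + l 1, fun v => by rw [evZ_add, ← hl 0 v, ← hl 1 v]; rfl⟩

/-- The reindexing of the variables at a quantifier. -/
def re {γ : Type} {n : ℕ} : (γ ⊕ Fin (n + 1)) → Option (γ ⊕ Fin n) :=
  Sum.elim (fun a => some (Sum.inl a))
    (fun j => Fin.lastCases (motive := fun _ => Option (γ ⊕ Fin n)) none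
      (fun j => some (Sum.inr j)) j)

theorem ext_re {γ : Type} {n : ℕ} (v : γ → ℤ) (xs : Fin n → ℤ) (z : ℤ) :
    ext (Sum.elim v xs) z ∘ re = Sum.elim v (Fin.snoc (α := fun _ => ℤ) xs z) := by
  funext o
  rcases o with a | j
  · rfl
  · induction j using Fin.lastCases with
    | last => simp [re, ext]
    | cast j => simp [re, ext]

/-- Every formula is tame. -/
theorem tame_formula [Fintype ι] (hK : Kron θ) (hirr : ∀ i, Irrational (θ i)) {α β : ℝ}
    {p q p' q' : ℤ} {r r' : ℕ} (hr : 0 < r) (hr' : 0 < r') {j j' : ι}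
    (hα : α = (p : ℝ) / r + q * θ j) (hβ : β = (p' : ℝ) / r' + q' * θ j')
    {γ : Type} {n : ℕ} (φ : Lzc.BoundedFormula γ n) :
    Tame θ (fun u : γ ⊕ Fin n → ℤ =>
      @BoundedFormula.Realize Lzc ℤ (zcStructure α β) γ n φ (u ∘ Sum.inl) (u ∘ Sum.inr)) := by
  induction φ with
  | falsum => exact Tame.const False
  | equal t₁ t₂ =>
    obtain ⟨l₁, h₁⟩ := term_form α β t₁
    obtain ⟨l₂, h₂⟩ := term_form α β t₂
    obtain ⟨D, hD⟩ := tame_eq (θ := θ) (l₁ - l₂) 0
    refine ⟨D, fun v w h => ?_⟩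
    have := hD v w h
    simp only [evZ_sub, add_zero, sub_eq_zero] at this
    simp only [BoundedFormula.Realize, h₁, h₂, Sum.elim_comp_inl_inr]
    exact this
  | rel R ts =>
    cases R with
    | Ca =>
      obtain ⟨l₀, h₀⟩ := term_form α β (ts 0)
      obtain ⟨l₁, h₁⟩ := term_form α β (ts 1)
      obtain ⟨l₂, h₂⟩ := term_form α β (ts 2)
      obtain ⟨D, hD⟩ := tame_cyc hr hα l₀ l₁ l₂
      refine ⟨D, fun v w h => ?_⟩
      have := hD v w h
      change Cyc α _ _ _ = Cyc α _ _ _
      simp only [h₀, h₁, h₂, Sum.elim_comp_inl_inr]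
      exact this
    | Cb =>
      obtain ⟨l₀, h₀⟩ := term_form α β (ts 0)
      obtain ⟨l₁, h₁⟩ := term_form α β (ts 1)
      obtain ⟨l₂, h₂⟩ := term_form α β (ts 2)
      obtain ⟨D, hD⟩ := tame_cyc hr' hβ l₀ l₁ l₂
      refine ⟨D, fun v w h => ?_⟩
      have := hD v w h
      change Cyc β _ _ _ = Cyc β _ _ _
      simp only [h₀, h₁, h₂, Sum.elim_comp_inl_inr]
      exact this
  | imp φ ψ ih₁ ih₂ =>
    exact ih₁.map₂ ih₂ (fun a b => a → b)
  | @all m φ ih =>
    have h1 := tame_reindex (θ := θ) (re (γ := γ)) ih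
    have h2 := tame_all hK hirr h1
    obtain ⟨D, hD⟩ := h2
    refine ⟨D, fun v w h => ?_⟩
    have := hD v w h
    have e : ∀ (u : γ ⊕ Fin m → ℤ) (z : ℤ),
        @BoundedFormula.Realize Lzc ℤ (zcStructure α β) γ _ φ
          ((ext u z ∘ re) ∘ Sum.inl) ((ext u z ∘ re) ∘ Sum.inr) ↔
        @BoundedFormula.Realize Lzc ℤ (zcStructure α β) γ _ φ (u ∘ Sum.inl)
          (Fin.snoc (α := fun _ => ℤ) (u ∘ Sum.inr) z) := by
      intro u z
      have e1 : u = Sum.elim (u ∘ Sum.inl) (u ∘ Sum.inr) := by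
        funext o; cases o <;> rfl
      have e2 : ext u z ∘ re = Sum.elim (u ∘ Sum.inl)
          (Fin.snoc (α := fun _ => ℤ) (u ∘ Sum.inr) z) := by
        conv_lhs => rw [e1]
        exact ext_re _ _ z
      rw [e2]
      rfl
    simp only [e] at this
    exact this

end Reduction

/-! ## Generators -/

/-- The theorem of Kronecker for a family independent over the rationals together with `1`. -/
theorem kron_of_indep {ι : Type} [Fintype ι] [Nonempty ι] {θ : ι → ℝ}
    (hθ : ∀ (c : ι → ℤ) (c0 : ℤ), ∑ i, (c i : ℝ) * θ i = c0 → c = 0) : Kron θ := by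
  classical
  have base : ∀ a b : ι → ℝ, (∀ i, a i < b i) → ∃ k : ℤ, ∃ m : ι → ℤ, ∀ i,
      a i < (k : ℝ) * θ i - m i ∧ (k : ℝ) * θ i - m i < b i := by
    intro a b hab
    obtain ⟨i0, hi0⟩ := Finite.exists_min (fun i => b i - a i)
    set ε := (b i0 - a i0) / 2 with hε
    have hεpos : 0 < ε := by rw [hε]; linarith [hab i0]
    have hεle : ∀ i, ε ≤ (b i - a i) / 2 := fun i => by rw [hε]; linarith [hi0 i]
    let y : UnitAddTorus ι := fun i => (θ i : UnitAddCircle)
    let g : UnitAddTorus ι := fun i => (((a i + b i) / 2 : ℝ) : UnitAddCircle)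
    obtain ⟨k, hk⟩ := Pool.Agent.TH574.PZ.kronecker y g (by
      intro c hc
      have h1 : ((∑ i, (c i : ℝ) * θ i : ℝ) : UnitAddCircle) = 0 := by
        rw [← hc]
        simp only [y]
        rw [← QuotientAddGroup.mk'_apply, map_sum]
        apply Finset.sum_congr rfl
        intro i _
        rw [← zsmul_eq_mul, map_zsmul]
        rfl
      obtain ⟨n, hn⟩ := (AddCircle.coe_eq_zero_iff (1 : ℝ)).mp h1
      have h2 := hθ c n (by rw [← hn]; simp)
      rw [h2]; simp) ε hεpos
    have hk' : ∀ i, dist (k • y i) (g i) < ε := fun i =>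
      lt_of_le_of_lt (dist_le_pi_dist (k • y) g i) hk
    have hm : ∀ i, ∃ m : ℤ, |(k : ℝ) * θ i - m - (a i + b i) / 2| < ε := by
      intro i
      have h1 := hk' i
      rw [dist_eq_norm] at h1
      have h2 : k • y i - g i = (((k : ℝ) * θ i - (a i + b i) / 2 : ℝ) : UnitAddCircle) := by
        simp only [y, g]
        rw [AddCircle.coe_sub]
        congr 1
        rw [← zsmul_eq_mul]
        rfl
      rw [h2, UnitAddCircle.norm_eq] at h1
      refine ⟨round ((k : ℝ) * θ i - (a i + b i) / 2), ?_⟩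
      convert h1 using 2
      ring
    choose m hm using hm
    refine ⟨k, m, fun i => ?_⟩
    have h1 := hm i
    have h2 := hεle i
    rw [abs_lt] at h1
    constructor <;> linarith [h1.1, h1.2]
  intro a b hab Z
  -- avoid the elements of `Z` one after the other
  induction Z using Finset.induction_on generalizing a b with
  | empty =>
    obtain ⟨k, m, hk⟩ := base a b hab
    exact ⟨k, by simp, m, hk⟩
  | insert k0 Z _ ih =>
    -- shrink to length at most one
    set b' : ι → ℝ := fun i => min (b i) (a i + 1) with hb'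
    have hab' : ∀ i, a i < b' i := fun i => lt_min (hab i) (by linarith)
    have hb'b : ∀ i, b' i ≤ b i := fun i => min_le_left _ _
    have hb'a : ∀ i, b' i ≤ a i + 1 := fun i => min_le_right _ _
    obtain ⟨k, hk, m, hm⟩ := ih a b' hab'
    by_cases hk0 : k = k0
    · subst hk0
      obtain ⟨i0⟩ := (inferInstance : Nonempty ι)
      let b'' : ι → ℝ := Function.update b' i0 ((k : ℝ) * θ i0 - m i0)
      have hab'' : ∀ i, a i < b'' i := by
        intro i
        by_cases h : i = i0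
        · subst h; simp only [b'', Function.update_self]; exact (hm i).1
        · simp only [b'', Function.update_of_ne h]; exact hab' i
      have hb''b' : ∀ i, b'' i ≤ b' i := by
        intro i
        by_cases h : i = i0
        · subst h; simp only [b'', Function.update_self]; exact (hm i).2.le
        · simp only [b'', Function.update_of_ne h]; exact le_rfl
      obtain ⟨k', hk', m', hm'⟩ := ih a b'' hab''
      refine ⟨k', ?_, m', fun i => ⟨(hm' i).1,
        lt_of_lt_of_le (hm' i).2 ((hb''b' i).trans (hb'b i))⟩⟩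
      intro hmem
      rcases Finset.mem_insert.mp hmem with rfl | hmem
      · have h1 := hm' i0
        simp only [b'', Function.update_self] at h1
        have h2 := hm i0
        have h3 := hb'a i0
        have h4 : (m' i0 : ℝ) - m i0 < 1 := by linarith [h1.1, h2.2]
        have h5 : (m i0 : ℝ) < m' i0 := by linarith [h1.2]
        have h6 : m i0 < m' i0 := by exact_mod_cast h5
        have h7 : ((m' i0 - m i0 : ℤ) : ℝ) < 1 := by push_cast; exact h4
        have h8 : m' i0 - m i0 < 1 := by exact_mod_cast h7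
        omega
      · exact hk' hmem
    · exact ⟨k, fun hmem => (Finset.mem_insert.mp hmem).elim hk0 hk, m, fun i =>
        ⟨(hm i).1, lt_of_lt_of_le (hm i).2 (hb'b i)⟩⟩

/-- Generators for a pair of irrational numbers. -/
theorem exists_generators {α β : ℝ} (hα : Irrational α) (hβ : Irrational β) :
    ∃ (ι : Type) (_ : Fintype ι) (θ : ι → ℝ), Kron θ ∧ (∀ i, Irrational (θ i)) ∧
      (∃ (p q : ℤ) (r : ℕ) (j : ι), 0 < r ∧ α = (p : ℝ) / r + q * θ j) ∧
      (∃ (p q : ℤ) (r : ℕ) (j : ι), 0 < r ∧ β = (p : ℝ) / r + q * θ j) := by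
  by_cases hdep : ∃ a b c : ℤ, (a : ℝ) + b * α + c * β = 0 ∧ ¬ (b = 0 ∧ c = 0)
  · obtain ⟨a, b, c, habc, hbc⟩ := hdep
    have hc : c ≠ 0 := by
      rintro rfl
      have hb : b ≠ 0 := fun h => hbc ⟨h, rfl⟩
      have : Irrational ((b : ℝ) * α) := hα.intCast_mul hb
      have h2 : (b : ℝ) * α = ((-a : ℤ) : ℝ) := by push_cast at habc ⊢; linarith
      rw [h2] at this
      exact (-a).not_irrational this
    have hcR : (c : ℝ) ≠ 0 := by exact_mod_cast hc
    have hirr : Irrational (α / c) := by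
      have := hα.div_intCast hc
      exact this
    refine ⟨Unit, inferInstance, fun _ => α / c, ?_, fun _ => hirr, ⟨0, c, 1, (), one_pos, ?_⟩,
      ⟨-a * c.sign, -b, c.natAbs, (), Int.natAbs_pos.mpr hc, ?_⟩⟩
    · apply kron_of_indep
      intro d d0 hd
      simp only [Finset.univ_unique, Finset.sum_singleton] at hd
      by_contra hne
      have hne' : d () ≠ 0 := by
        intro h; apply hne; funext x; exact h
      have : Irrational ((d () : ℝ) * (α / c)) := hirr.intCast_mul hne'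
      have e : (d default : ℝ) = (d () : ℝ) := rfl
      rw [e] at hd
      rw [hd] at this
      exact d0.not_irrational this
    · push_cast
      field_simp
      ring
    · have h1 : ((c.natAbs : ℕ) : ℝ) = |(c : ℝ)| := by
        rw [Nat.cast_natAbs]; push_cast; rfl
      have h2 : ((-a * c.sign : ℤ) : ℝ) / ((c.natAbs : ℕ) : ℝ) = -a / c := by
        rw [h1]
        rcases lt_or_gt_of_ne hc with h | h
        · have h' : (c : ℝ) < 0 := by exact_mod_cast h
          rw [Int.sign_eq_neg_one_of_neg h, abs_of_neg h']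
          push_cast
          rw [div_eq_div_iff (by linarith) hcR]; ring
        · have h' : (0 : ℝ) < c := by exact_mod_cast h
          rw [Int.sign_eq_one_of_pos h, abs_of_pos h']
          push_cast
          rw [mul_one]
      rw [h2]
      push_cast
      field_simp
      linear_combination habc
  · push Not at hdep
    refine ⟨Bool, inferInstance, fun i => if i then α else β, ?_, ?_,
      ⟨0, 1, 1, true, one_pos, by simp⟩, ⟨0, 1, 1, false, one_pos, by simp⟩⟩
    · apply kron_of_indep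
      intro d d0 hd
      simp only [Fintype.sum_bool, if_true, Bool.false_eq_true, if_false] at hd
      have := hdep (-d0) (d true) (d false) (by push_cast; linarith)
      funext i
      cases i
      · exact this.2
      · exact this.1
    · intro i
      cases i
      · exact hβ
      · exact hα

/-- **MP_66c0d0_lc, Q1: yes.** For irrational `α, β` (in particular for irrational `α, β` linearly
independent over the rationals) the structure `(ℤ; +, C_α, C_β)` is NIP. -/
theorem result (α β : ℝ) (hα : Irrational α) (hβ : Irrational β) :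
    NIPTheory.{w} (@Language.completeTheory Lzc ℤ (zcStructure α β)) := by
  intro M _ _ hM p q φ
  rintro ⟨a, b, hab⟩
  obtain ⟨ι, _, θ, hK, hirr, ⟨p₁, q₁, r₁, j₁, hr₁, h₁⟩, ⟨p₂, q₂, r₂, j₂, hr₂, h₂⟩⟩ :=
    exists_generators hα hβ
  let _ := zcStructure α β
  have ht := tame_formula hK hirr hr₁ hr₂ h₁ h₂ φ
  have ht2 : Tame θ (fun u : Fin p ⊕ Fin q → ℤ => φ.Realize u) := by
    have := tame_reindex (θ := θ) (β' := Fin p ⊕ Fin q)
      (Sum.elim id Fin.elim0 : (Fin p ⊕ Fin q) ⊕ Fin 0 → Fin p ⊕ Fin q) ht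
    obtain ⟨D, hD⟩ := this
    refine ⟨D, fun v w h => ?_⟩
    have h3 := hD v w h
    have e : ∀ u : Fin p ⊕ Fin q → ℤ,
        (φ.Realize u ↔ BoundedFormula.Realize φ
          ((u ∘ (Sum.elim id Fin.elim0 : (Fin p ⊕ Fin q) ⊕ Fin 0 → Fin p ⊕ Fin q)) ∘ Sum.inl)
          ((u ∘ (Sum.elim id Fin.elim0 : (Fin p ⊕ Fin q) ⊕ Fin 0 → Fin p ⊕ Fin q)) ∘ Sum.inr)) := by
      intro u
      unfold Formula.Realize
      apply iff_of_eq
      congr 1
      exact Subsingleton.elim _ _
    change (φ.Realize v) = (φ.Realize w)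
    rw [propext (e v), propext (e w)]
    exact h3
  obtain ⟨n, hn⟩ := tame_not_shatter ht2
  have hshZ : ¬ Shatters ℤ φ n := hn
  have heq : ℤ ≅[Lzc] M := Q200.equiv_of_models Lzc
  rw [shatters_transfer heq φ n] at hshZ
  apply hshZ
  refine ⟨fun i => a i, fun S => b (Fin.val '' S), fun i S => ?_⟩
  rw [hab]
  constructor
  · rintro ⟨j, hj, hji⟩
    rwa [← Fin.ext hji]
  · intro h
    exact ⟨i, h, rfl⟩

end Pool.Agent.Results.MP_66c0d0_lc.TwoCyclicOrdersNIP
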